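import Pool.Agent.Lib_MP_55d5ef_top.TTab
import Pool.Agent.Lib_MP_55d5ef_c.CRg

/-!
# `MP_55d5ef_gt`, level B: gluing tables

`GTab n` : a gluing of `n` pentachora (vertices `Fin 5`); `G.num`, `G.od` its facet numbers and
orderings; `G.rel_spec`, `G.glue` : the gluing relation.  `GTab.ofP` : from a packed table.
-/

set_option linter.unusedSectionVars false

namespace H4T

open Fl49 PL55 Finset H4C MP55T Lib_MP_55d5ef_geo Lib_MP_55d5ef Lib_MP_55d5ef_q Lib_MP_55d5ef_c

/-- A gluing of `n` pentachora: facet `k` of `i` is glued to the facet `np i k k` of `nj i k`, the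
vertex `m ≠ k` goes to `np i k m`. -/
structure GTab (n : ℕ) where
  nj : Fin n → Fin 5 → Fin n
  np : Fin n → Fin 5 → Fin 5 → Fin 5
  nj_nj : ∀ i k, nj (nj i k) (np i k k) = i
  np_np : ∀ i k m, np (nj i k) (np i k k) (np i k m) = m
  ne : ∀ i k, ¬ (i = nj i k ∧ k = np i k k)

namespace GTab

variable {n : ℕ} (G : GTab n)

theorem np_inj (i : Fin n) (k : Fin 5) : Function.Injective (G.np i k) := by
  intro m m' h
  rw [← G.np_np i k m, h, G.np_np]

theorem np_bij (i : Fin n) (k : Fin 5) : Function.Bijective (G.np i k) :=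
  Finite.injective_iff_bijective.1 (G.np_inj i k)

/-- The code of a facet. -/
def cd (i : Fin n) (k : Fin 5) : ℕ := 5 * i.1 + k.1

theorem cd_inj {i j : Fin n} {k w : Fin 5} (h : cd i k = cd j w) : i = j ∧ k = w := by
  unfold cd at h
  have h1 := k.2
  have h2 := w.2
  exact ⟨Fin.ext (by omega), Fin.ext (by omega)⟩

/-- The numbers of the facets. -/
def num (i : Fin n) (k : Fin 5) : ℕ := min (cd i k) (cd (G.nj i k) (G.np i k k))

/-- The orderings of the facets. -/
def od (i : Fin n) (k : Fin 5) : List (Fin 5) :=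
  if cd i k ≤ cd (G.nj i k) (G.np i k k) then lk k
  else (lk (G.np i k k)).map (G.np (G.nj i k) (G.np i k k))

theorem num_partner (i : Fin n) (k : Fin 5) : G.num (G.nj i k) (G.np i k k) = G.num i k := by
  unfold num
  rw [G.nj_nj, G.np_np, min_comm]

theorem num_eq {i j : Fin n} {k w : Fin 5} (h : G.num i k = G.num j w) :
    (i = j ∧ k = w) ∨ (j = G.nj i k ∧ w = G.np i k k) := by
  have key : cd i k = cd j w ∨ cd i k = cd (G.nj j w) (G.np j w w) ∨
      cd (G.nj i k) (G.np i k k) = cd j w ∨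
      cd (G.nj i k) (G.np i k k) = cd (G.nj j w) (G.np j w w) := by
    unfold num at h
    omega
  rcases key with h1 | h1 | h1 | h1
  · exact Or.inl (cd_inj h1)
  · obtain ⟨e1, e2⟩ := cd_inj h1
    right
    subst e1
    rw [e2]
    exact ⟨(G.nj_nj j w).symm, (G.np_np j w w).symm⟩
  · obtain ⟨e1, e2⟩ := cd_inj h1
    exact Or.inr ⟨e1.symm, e2.symm⟩
  · obtain ⟨e1, e2⟩ := cd_inj h1
    left
    have e3 := G.nj_nj i k
    have e4 := G.np_np i k k
    rw [e1, e2, G.nj_nj] at e3
    rw [e1, e2, G.np_np] at e4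
    exact ⟨e3.symm, e4.symm⟩

theorem od_mem (i : Fin n) (k m : Fin 5) (hm : m ≠ k) : m ∈ G.od i k := by
  unfold od
  split_ifs
  · exact mem_lk.2 hm
  · rw [List.mem_map]
    refine ⟨G.np i k m, mem_lk.2 ?_, G.np_np i k m⟩
    intro h
    exact hm (G.np_inj i k h)

theorem od_ne (i : Fin n) (k m : Fin 5) (hm : m ∈ G.od i k) : m ≠ k := by
  unfold od at hm
  split_ifs at hm
  · exact mem_lk.1 hm
  · obtain ⟨l, hl, rfl⟩ := List.mem_map.1 hm
    rintro h
    refine mem_lk.1 hl ?_
    obtain ⟨l', rfl⟩ := (G.np_bij i k).2 l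
    rw [G.np_np] at h
    rw [h]

/-- The orderings of the two sides of a gluing. -/
theorem od_partner (i : Fin n) (k : Fin 5) :
    G.od (G.nj i k) (G.np i k k) = (G.od i k).map (G.np i k) := by
  have hne := G.ne i k
  have hc : cd i k ≠ cd (G.nj i k) (G.np i k k) := fun h => hne (cd_inj h)
  rcases lt_or_gt_of_ne hc with h | h
  · have e1 : G.od i k = lk k := by
      unfold od
      rw [if_pos h.le]
    have e2 : G.od (G.nj i k) (G.np i k k) = (lk k).map (G.np i k) := by
      unfold od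
      rw [G.nj_nj, G.np_np, if_neg (by omega)]
    rw [e1, e2]
  · have e1 : G.od i k = (lk (G.np i k k)).map (G.np (G.nj i k) (G.np i k k)) := by
      unfold od
      rw [if_neg (by omega)]
    have e2 : G.od (G.nj i k) (G.np i k k) = lk (G.np i k k) := by
      unfold od
      rw [G.nj_nj, G.np_np, if_pos h.le]
    rw [e1, e2, List.map_map]
    conv_lhs => rw [← List.map_id (lk (G.np i k k))]
    refine List.map_congr_left fun m _ => ?_
    obtain ⟨m', rfl⟩ := (G.np_bij i k).2 m
    show G.np i k m' = G.np i k (G.np (G.nj i k) (G.np i k k) (G.np i k m'))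
    rw [G.np_np]

/-- The orderings of the two sides of a gluing. -/
theorem od_iff (i : Fin n) (k : Fin 5) (x y : Fin 5 → ℝ) :
    (G.od i k).map x = (G.od (G.nj i k) (G.np i k k)).map y ↔
      ∀ m, m ≠ k → x m = y (G.np i k m) := by
  rw [od_partner, List.map_map]
  constructor
  · intro h m hm
    exact List.map_inj_left.1 h m (G.od_mem i k m hm)
  · intro h
    exact List.map_congr_left fun m hm => h m (G.od_ne i k m hm)

/-- The realisation. -/
abbrev XG : Type := X (labU : Fin n → Finset (Fin 5)) G.num G.od (Set.univ : Set (Fin n))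

/-- What the gluing relation says. -/
theorem rel_spec {z z' : Z (labU : Fin n → Finset (Fin 5)) (Set.univ : Set (Fin n))}
    (h : Rg labU G.num G.od Set.univ z z') : (z.1 = z'.1 ∧ z.2.1 = z'.2.1) ∨
    ∃ k : Fin 5, z.2.1 k = 0 ∧ z'.1.1 = G.nj z.1.1 k ∧ ∀ m, z'.2.1 (G.np z.1.1 k m) = z.2.1 m := by
  obtain ⟨k, -, w, -, h1, h2, h3, h4⟩ := h
  have same : z.1.1 = z'.1.1 ∧ k = w → (z.1 = z'.1 ∧ z.2.1 = z'.2.1) := by
    rintro ⟨e1, e2⟩
    refine ⟨Subtype.ext e1, ?_⟩
    subst e2
    rw [e1] at h4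
    funext m
    by_cases hm : m = k
    · rw [hm]
      exact h2.trans h3.symm
    · exact List.map_inj_left.1 h4 m (G.od_mem _ k m hm)
  rcases G.num_eq h1 with he | ⟨e1, e2⟩
  · exact Or.inl (same he)
  · right
    refine ⟨k, h2, e1, fun m => ?_⟩
    rw [e1, e2] at h4
    by_cases hm : m = k
    · rw [hm, ← e2, h2]
      exact h3
    · exact ((G.od_iff _ _ _ _).1 h4 m hm).symm

/-- The gluing over the facet `k`. -/
theorem glue {i j : Fin n} {x y : Fin 5 → ℝ} (hx : x ∈ Dl (Finset.univ : Finset (Fin 5)))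
    (hy : y ∈ Dl (Finset.univ : Finset (Fin 5))) (k : Fin 5) (h0 : x k = 0)
    (h1 : j = G.nj i k) (h2 : ∀ m, y (G.np i k m) = x m) :
    (pt labU G.num G.od i (Set.mem_univ i) x hx : G.XG) =
      pt labU G.num G.od j (Set.mem_univ j) y hy := by
  subst h1
  refine pt_glue (lab := labU) (num := G.num) (od := G.od) (Set.mem_univ _) (Set.mem_univ _)
    hx hy (v := k) (w := G.np i k k) (Finset.mem_univ _) (Finset.mem_univ _)
    (G.num_partner i k).symm h0 ?_ ?_
  · rw [h2 k]
    exact h0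
  · exact (G.od_iff i k x y).2 fun m _ => (h2 m).symm

end GTab

/-! ### Packed tables -/

/-- The neighbour: bits `24 (5 i + k) + 0 .. 8`. -/
def nbP (tab i k : ℕ) : ℕ := (tab >>> (24 * (5 * i + k))) % 512

/-- The image of the vertex `m`: bits `24 (5 i + k) + 9 + 3 m + 0 .. 2`. -/
def pmP (tab i k m : ℕ) : ℕ := (tab >>> (24 * (5 * i + k) + 9 + 3 * m)) % 8

/-- The check of a facet. -/
def chP (n tab i k : ℕ) : Bool :=
  decide (nbP tab i k < n) && (decide (pmP tab i k k < 5) &&
    (decide (nbP tab (nbP tab i k) (pmP tab i k k) = i) &&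
    ((allLt 5 fun m => decide (pmP tab i k m < 5) &&
      decide (pmP tab (nbP tab i k) (pmP tab i k k) (pmP tab i k m) = m)) &&
      !(decide (nbP tab i k = i) && decide (pmP tab i k k = k)))))

theorem chP_spec {n tab : ℕ} (h : (allLt n fun i => allLt 5 fun k => chP n tab i k) = true)
    {i k : ℕ} (hi : i < n) (hk : k < 5) : nbP tab i k < n ∧ pmP tab i k k < 5 ∧
    nbP tab (nbP tab i k) (pmP tab i k k) = i ∧ (∀ m < 5, pmP tab i k m < 5 ∧
      pmP tab (nbP tab i k) (pmP tab i k k) (pmP tab i k m) = m) ∧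
      ¬ (nbP tab i k = i ∧ pmP tab i k k = k) := by
  have h := allLt_iff.1 (allLt_iff.1 h i hi) k hk
  simp only [chP, Bool.and_eq_true, decide_eq_true_eq] at h
  obtain ⟨h1, h2, h3, h4, h5⟩ := h
  refine ⟨h1, h2, h3, fun m hm => ?_, ?_⟩
  · have h6 := allLt_iff.1 h4 m hm
    simpa only [Bool.and_eq_true, decide_eq_true_eq] using h6
  · rintro ⟨e1, e2⟩
    rw [decide_eq_true e1, decide_eq_true e2] at h5
    exact absurd h5 (by decide)

/-- The gluing of a packed table. -/
def GTab.ofP (n tab : ℕ) (h : (allLt n fun i => allLt 5 fun k => chP n tab i k) = true) :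
    GTab n where
  nj i k := ⟨nbP tab i k, (chP_spec h i.2 k.2).1⟩
  np i k m := ⟨pmP tab i k m, ((chP_spec h i.2 k.2).2.2.2.1 m m.2).1⟩
  nj_nj i k := Fin.ext (chP_spec h i.2 k.2).2.2.1
  np_np i k m := Fin.ext ((chP_spec h i.2 k.2).2.2.2.1 m m.2).2
  ne i k := by
    rintro ⟨h1, h2⟩
    exact (chP_spec h i.2 k.2).2.2.2.2 ⟨(congrArg Fin.val h1).symm, (congrArg Fin.val h2).symm⟩

end H4T
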