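import Pool.Agent.Lib_MP_55d5ef_top.TBun
import Pool.Agent.Lib_MP_55d5ef_b3.PLB

/-!
# `MP_55d5ef_gt`, level B: everything except the moves of `N504`
-/

set_option linter.unusedSectionVars false

open Fl49 PL55 MP55B H4C

namespace H4T

/-- **Level B from the moves of L4.** -/
theorem levelB_of_E (E : B3.XN numR0 odR0 ≃ₜ X6) (hE : PLH E) : LevelB :=
  levelB_bundle B3.radD (B3.phi_PLX rok0) E hE

/-- The same for the official table of `N504`. -/
theorem levelB_of_EN (E : X (labU : Fin 504 → Finset (Fin 5)) numN odN Set.univ ≃ₜ X6)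
    (hE : PLH E) : LevelB :=
  levelB_of_E (isoN.homeo.trans E) (PLH.trans ⟨isoN.plx, isoN.plx_symm⟩ hE)

/-- The same with the end of the moves in the form `canon`. -/
theorem levelB_of_canon
    (E : X (labU : Fin 504 → Finset (Fin 5)) numN odN Set.univ ≃ₜ X labR numR odR (sL canon))
    (hE : PLH E) : LevelB :=
  levelB_of_EN (E.trans canonIso.homeo) (hE.trans ⟨canonIso.plx, canonIso.plx_symm⟩)

end H4T
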