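import Pool.Agent.Lib_MP_55d5ef_b4.All
import Pool.Agent.Lib_MP_55d5ef_top.TRest
import Pool.Agent.Lib_MP_55d5ef_fl.PkFull

/-!
# `MP_55d5ef_gt`, level B

A single piecewise linear torus in the four-sphere whose complement is a complete hyperbolic
manifold of finite volume.
-/

open Fl49 H4C PL55

namespace H4T

/-- **Level B.** -/
theorem levelB : LevelB := by
  obtain ⟨c, S1, h1, h2, h3⟩ := B4.b4
  obtain ⟨E, hE⟩ := h3.trans (full_to_canon h1 h2)
  exact levelB_of_canon E hE

end H4T
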