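import Pool.Agent.Lib_MP_55d5ef_top.TFin
import Pool.Agent.Lib_MP_55d5ef_pd.LOne

/-!
# `MP_55d5ef_gt`, level B: assembly

`levelB_of` : the level B statement from the links L2 .. L5.
-/

set_option linter.unusedSectionVars false

open Matrix Topology Filter Lib_MP_55d5ef_geo Lib_MP_55d5ef Lib_MP_55d5ef_pd Fl49 H4C PL55

namespace H4T

/-- The core torus is compact, hence closed. -/
theorem coreTorus_closed {ι : (Fin 2 → ℝ) × (Fin 2 → ℝ) → (Fin 6 → ℝ)}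
    (h : IsPLTorusNeighbourhood ι) : IsClosed (coreTorus ι) := by
  obtain ⟨n, Q, A, b, h1, h2, h3⟩ := h.piecewiseAffine
  have h0 : (0 : Fin 2 → ℝ) ∈ sq := fun i => by simp
  let K : Set ((Fin 2 → ℝ) × (Fin 2 → ℝ)) :=
    (Set.pi Set.univ fun _ : Fin 2 => Set.Icc (0 : ℝ) 1) ×ˢ {0}
  have hK : IsCompact K := (isCompact_univ_pi fun _ => isCompact_Icc).prod isCompact_singleton
  have hmem : ∀ z ∈ K, (∀ i, 0 ≤ z.1 i ∧ z.1 i ≤ 1) ∧ z.2 = 0 := by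
    rintro z ⟨hz1, hz2⟩
    exact ⟨fun i => hz1 i (Set.mem_univ i), hz2⟩
  have e : coreTorus ι = ⋃ k, (fun z => A k z + b k) '' (K ∩ Q k) := by
    ext y
    simp only [coreTorus, Set.mem_image, Set.mem_iUnion]
    constructor
    · rintro ⟨⟨u, p⟩, hp, rfl⟩
      have hp : p = 0 := hp
      subst hp
      have hper : ι (u, 0) = ι (fun i => Int.fract (u i), 0) := by
        symm
        rw [h.eq_iff _ _ 0 h0 0 h0]
        refine ⟨rfl, fun i => ⌊u i⌋, fun i => ?_⟩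
        exact (Int.fract_add_floor (u i)).symm
      have hin : ∀ i, 0 ≤ Int.fract (u i) ∧ Int.fract (u i) ≤ 1 := fun i =>
        ⟨Int.fract_nonneg _, (Int.fract_lt_one _).le⟩
      obtain ⟨k, hk⟩ := h3 (fun i => Int.fract (u i), 0) hin h0
      refine ⟨k, (fun i => Int.fract (u i), 0), ⟨⟨fun i _ => hin i, rfl⟩, hk⟩, ?_⟩
      rw [hper]
      exact (h2 k _ hk hin h0).symm
    · rintro ⟨k, z, ⟨hz1, hz2⟩, rfl⟩
      obtain ⟨hz3, hz4⟩ := hmem z hz1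
      exact ⟨z, hz4, h2 k z hz2 hz3 (by rw [hz4]; exact h0)⟩
  rw [e]
  refine (isCompact_iUnion fun k => ?_).isClosed
  exact (hK.inter_right (h1 k).isClosed).image ((A k).continuous.add continuous_const)

/-- Piecewise smoothness on the realisation `X6` is `IsPiecewiseSmooth` on `dD5`. -/
theorem pdx_six {Γ : Subgroup (GL (Fin 5) ℝ)} {T : Set (Fin 6 → ℝ)} (hTc : IsClosed T)
    {T' : Set X6} (hT : ∀ y : X6, y ∈ T' ↔ ((e6 y : dD5) : Fin 6 → ℝ) ∈ T)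
    {h' : X6 → HypQuot Γ}
    (hh : PDX labS numS odS Set.univ T' H4
      (fun x : H4 => (Quotient.mk (orbitSetoid Γ) x : HypQuot Γ)) h')
    (h : {x : Fin 6 → ℝ // x ∈ dD5 ∧ x ∉ T} ≃ₜ HypQuot Γ)
    (heq : ∀ x (hx : x ∈ dD5 ∧ x ∉ T), h ⟨x, hx⟩ = h' (e6.symm ⟨x, hx.1⟩)) :
    IsPiecewiseSmooth h := by
  intro j p hp hpj hpT
  have hDl : ∀ x ∈ dD5, x j = 0 → x ∈ Dl (labS j) := by
    rintro x ⟨h1, h3, _⟩ hxj
    exact (Dl_erase_iff (Finset.mem_univ j)).mpr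
      ⟨⟨h1, fun v hv => absurd (Finset.mem_univ v) hv, h3⟩, hxj⟩
  have hdD : ∀ x (hx : x ∈ dD5) (hxj : x j = 0),
      e6.symm ⟨x, hx⟩ = pt labS numS odS j (Set.mem_univ j) x (hDl x hx hxj) := by
    intro x hx hxj
    rw [Homeomorph.symm_apply_eq]
    exact Subtype.ext rfl
  have hdom : ∀ x (hx : x ∈ dD5 ∧ x ∉ T), x j = 0 →
      x ∈ dom labS numS odS Set.univ T' ⟨j, Set.mem_univ j⟩ := by
    intro x hx hxj
    refine ⟨hDl x hx.1 hxj, ?_⟩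
    intro hc
    rw [hT] at hc
    exact hx.2 hc
  obtain ⟨n, Q, g, h1, h2, h3, h4⟩ := hh (pt labS numS odS j (Set.mem_univ j) p (hDl p hp hpj))
    ⟨j, Set.mem_univ j⟩ p (hdom p ⟨hp, hpT⟩ hpj)
  refine ⟨n, Q, g, h1, ?_, ?_⟩
  · intro k x hxQ hx hxj
    obtain ⟨g1, g2⟩ := h2 k x ⟨hxQ, hdom x hx hxj⟩
    obtain ⟨g3, g4⟩ := h3 k x ⟨hxQ, hdom x hx hxj⟩
    refine ⟨⟨g1, ?_⟩, g3, ?_⟩
    · rw [heq x hx, hdD x hx.1 hxj]
      unfold chart at g2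
      rw [dif_pos (hDl x hx.1 hxj)] at g2
      exact g2
    · intro v hv1 hv2 hv3
      refine g4 v ⟨?_, ?_⟩ hv3
      · intro u hu
        have : u = j := by
          by_contra hc
          exact hu (Finset.mem_erase.mpr ⟨hc, Finset.mem_univ u⟩)
        rw [this, hv1]
      · have := Finset.add_sum_erase Finset.univ v (Finset.mem_univ j)
        rw [hv1, zero_add, hv2] at this
        exact this
  · rw [eventually_nhdsWithin_iff] at h4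
    have h5 : ∀ᶠ x in 𝓝 p, x ∉ T := hTc.isOpen_compl.mem_nhds hpT
    filter_upwards [h4, h5] with x hx hxT hxd hxj
    exact hx (hdom x ⟨hxd, hxT⟩ hxj)

/-- Regrouping of a subtype. -/
def subHomeo {Y : Type} [TopologicalSpace Y] (A T : Set Y) :
    {x : Y // x ∈ A ∧ x ∉ T} ≃ₜ {y : A // (y : Y) ∉ T} where
  toFun x := ⟨⟨x.1, x.2.1⟩, x.2.2⟩
  invFun y := ⟨y.1.1, y.1.2, y.2⟩
  left_inv _ := rfl
  right_inv _ := rfl
  continuous_toFun := (continuous_subtype_val.subtype_mk _).subtype_mk _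
  continuous_invFun := (continuous_subtype_val.comp continuous_subtype_val).subtype_mk _

section asm

variable {VN : Type} [DecidableEq VN] {ρN : Type} {labN : ρN → Finset VN}
  {numN : ρN → VN → ℕ} {odN : ρN → VN → List VN} {SN : Set ρN}
variable {VM : Type} [DecidableEq VM] {ρM : Type} {labM : ρM → Finset VM}
  {numM : ρM → VM → ℕ} {odM : ρM → VM → List VM} {SM : Set ρM}

/-- The product neighbourhood in `dD5`. -/
noncomputable def iotaD (E : X labN numN odN SN ≃ₜ X6)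
    (ι₀ : (Fin 2 → ℝ) × (Fin 2 → ℝ) → X labN numN odN SN) :
    (Fin 2 → ℝ) × (Fin 2 → ℝ) → (Fin 6 → ℝ) := fun z => ((e6 (E (ι₀ z)) : dD5) : Fin 6 → ℝ)

theorem iotaD_nb (E : X labN numN odN SN ≃ₜ X6) (hE : PLH E)
    (ι₀ : (Fin 2 → ℝ) × (Fin 2 → ℝ) → X labN numN odN SN)
    (hfpa : FPA {z | (∀ i, 0 ≤ z.1 i ∧ z.1 i ≤ 1) ∧ z.2 ∈ sq} ι₀)
    (heq : ∀ x y, ∀ p ∈ sq, ∀ q ∈ sq,
      (ι₀ (x, p) = ι₀ (y, q) ↔ p = q ∧ ∃ m : Fin 2 → ℤ, ∀ i, y i = x i + m i))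
    (hop : IsOpen (ι₀ '' {z | ∀ i, |z.2 i| < 1})) :
    IsPLTorusNeighbourhood (iotaD E ι₀) := by
  refine ⟨fun x p _ => (e6 (E (ι₀ (x, p)))).2, ?_, ?_, ?_⟩
  · intro x y p hp q hq
    rw [← heq x y p hp q hq]
    constructor
    · intro h
      exact E.injective (e6.injective (Subtype.ext h))
    · intro h
      unfold iotaD
      rw [h]
  · obtain ⟨n, Q, A, b, h1, h2, h3⟩ := (hfpa.comp (e := E) hE.1).six
    exact ⟨n, Q, A, b, h1, fun k z hz hz1 hz2 => h2 k z hz ⟨hz1, hz2⟩,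
      fun z hz1 hz2 => h3 z ⟨hz1, hz2⟩⟩
  · have h1 : IsOpen ((E.trans e6) '' (ι₀ '' {z | ∀ i, |z.2 i| < 1})) :=
      (E.trans e6).isOpenMap _ hop
    obtain ⟨U, hU, hUe⟩ := h1
    refine ⟨U, hU, ?_⟩
    ext x
    constructor
    · rintro ⟨z, hz, rfl⟩
      have : (e6 (E (ι₀ z)) : dD5) ∈ (Subtype.val ⁻¹' U : Set dD5) := by
        rw [hUe]
        exact ⟨ι₀ z, ⟨z, hz, rfl⟩, rfl⟩
      exact ⟨this, (e6 (E (ι₀ z))).2⟩
    · rintro ⟨hx1, hx2⟩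
      have : (⟨x, hx2⟩ : dD5) ∈ (Subtype.val ⁻¹' U : Set dD5) := hx1
      rw [hUe] at this
      obtain ⟨_, ⟨z, hz, rfl⟩, hz2⟩ := this
      exact ⟨z, hz, congrArg Subtype.val hz2⟩

/-- **Assembly of level B.** -/
theorem levelB_of (E : X labN numN odN SN ≃ₜ X6) (hE : PLH E)
    (ι₀ : (Fin 2 → ℝ) × (Fin 2 → ℝ) → X labN numN odN SN)
    (hfpa : FPA {z | (∀ i, 0 ≤ z.1 i ∧ z.1 i ≤ 1) ∧ z.2 ∈ sq} ι₀)
    (heq : ∀ x y, ∀ p ∈ sq, ∀ q ∈ sq,
      (ι₀ (x, p) = ι₀ (y, q) ↔ p = q ∧ ∃ m : Fin 2 → ℤ, ∀ i, y i = x i + m i))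
    (hop : IsOpen (ι₀ '' {z | ∀ i, |z.2 i| < 1}))
    (T₀ : Set (X labN numN odN SN)) (hT₀ : T₀ = ι₀ '' {z | z.2 = 0})
    (mk : X labM numM odM SM) (f3 : X labN numN odN SN → X labM numM odM SM)
    (hf3 : PLX labN numN odN SN T₀ labM numM odM SM {mk} f3)
    (B3 : {x : X labN numN odN SN // x ∉ T₀} ≃ₜ {y : X labM numM odM SM // y ≠ mk})
    (hB3 : ∀ x, (B3 x : X labM numM odM SM) = f3 x.1)
    (e2 : XC ≃ₜ X labM numM odM SM) (he2 : PLH e2) (hm : e2 pinf = mk) : LevelB := by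
  have hnb := iotaD_nb E hE ι₀ hfpa heq hop
  have hcl := coreTorus_closed hnb
  -- the core torus in `X6` and in `X N`
  have hcore : ∀ x : X labN numN odN SN,
      ((e6 (E x) : dD5) : Fin 6 → ℝ) ∈ coreTorus (iotaD E ι₀) ↔ x ∈ T₀ := by
    intro x
    rw [hT₀]
    constructor
    · rintro ⟨z, hz, hz2⟩
      exact ⟨z, hz, E.injective (e6.injective (Subtype.ext hz2))⟩
    · rintro ⟨z, hz, rfl⟩
      exact ⟨z, hz, rfl⟩
  -- the homeomorphism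
  let G1 := subHomeo dD5 (coreTorus (iotaD E ι₀))
  let G2 : {y : dD5 // (y : Fin 6 → ℝ) ∉ coreTorus (iotaD E ι₀)} ≃ₜ
      {x : X labN numN odN SN // x ∉ T₀} :=
    (E.trans e6).symm.subtype (fun y => by
      rw [← hcore]
      show (y : Fin 6 → ℝ) ∉ _ ↔ ((e6 (E (E.symm (e6.symm y))) : dD5) : Fin 6 → ℝ) ∉ _
      rw [E.apply_symm_apply, e6.apply_symm_apply])
  let G3 : {y : X labM numM odM SM // y ≠ mk} ≃ₜ {p : XC // p ≠ pinf} :=
    e2.symm.subtype (fun y => by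
      rw [← hm, not_iff_not, Homeomorph.symm_apply_eq])
  let G := G1.trans (G2.trans (B3.trans (G3.trans homB)))
  refine ⟨img Gam, iotaD E ι₀, G, img_manifold gdat, hnb, ?_, dD5_sphere⟩
  -- the total map
  have hE' : PLX labS numS odS Set.univ (E.symm ⁻¹' T₀) labN numN odN SN T₀ E.symm :=
    (hE.symm.compl (T := E.symm ⁻¹' T₀) (T' := T₀) (fun x => Iff.rfl)).1
  have he2' : PLX labM numM odM SM {mk} labU numC odC SC {pinf} e2.symm := by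
    refine (he2.symm.compl (T := {mk}) (T' := {pinf}) (fun x => ?_)).1
    rw [Set.mem_singleton_iff, Set.mem_singleton_iff, Homeomorph.symm_apply_eq, hm]
  have hP : PDX labS numS odS Set.univ (E.symm ⁻¹' T₀) H4
      (fun x : H4 => (Quotient.mk (orbitSetoid (img Gam)) x : HypQuot (img Gam)))
      (fun y => QH (hF (e2.symm (f3 (E.symm y))))) :=
    hFB_PDX.comp (he2'.comp (hf3.comp hE'))
  refine pdx_six hcl (T' := E.symm ⁻¹' T₀) ?_ hP G ?_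
  · intro y
    rw [Set.mem_preimage, ← hcore, E.apply_symm_apply]
  · intro x hx
    show homB (G3 (B3 (G2 (G1 ⟨x, hx⟩)))) = _
    have h1 : ((B3 (G2 (G1 ⟨x, hx⟩))) : X labM numM odM SM) =
        f3 (E.symm (e6.symm ⟨x, hx.1⟩)) := hB3 _
    have h2 : ((G3 (B3 (G2 (G1 ⟨x, hx⟩)))) : XC) =
        e2.symm (f3 (E.symm (e6.symm ⟨x, hx.1⟩))) := by
      rw [← h1]
      rfl
    rw [← h2]
    rfl

end asm

end H4T
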