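import Pool.Agent.Lib_MP_55d5ef_fl.PLf
import Pool.Agent.Lib_MP_55d5ef_fl.End
import Pool.Agent.Lib_MP_55d5ef_pl.Stmt

/-!
# `MP_55d5ef_gt`, level B: the boundary of the 5-simplex as a realisation

`X6` : six simplices with labels in `Fin 6`; `e6 : X6 ≃ₜ dD5` is the tautological
homeomorphism; `canonIso` : the six records `canon` are isomorphic to it.
-/

set_option linter.unusedSectionVars false

namespace H4T

open Fl49 PL55 Finset

/-- Labels of the facet `v` of the boundary of the simplex. -/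
def labS (v : Fin 6) : Finset (Fin 6) := Finset.univ.erase v

/-- Numbers of the facets of the facets. -/
def numS (v w : Fin 6) : ℕ := 8 * min (v : ℕ) w + max (v : ℕ) w

/-- Orderings. -/
def odS (v w : Fin 6) : List (Fin 6) := (List.finRange 6).filter (fun u => u ≠ v ∧ u ≠ w)

/-- The boundary of the simplex as a realisation. -/
abbrev X6 : Type := X labS numS odS (Set.univ : Set (Fin 6))

theorem fullS : Full labS numS odS (Finset.univ : Finset (Fin 6)) id (Set.univ : Set (Fin 6)) := by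
  refine ⟨fun v _ => rfl, fun v _ => Set.mem_univ _, fun i _ => ⟨i, Finset.mem_univ _, rfl⟩,
    ?_, ?_, ?_⟩
  · decide +kernel
  · decide +kernel
  · have h : ∀ v w : Fin 6, v ≠ w → ∀ z : Fin 6, ∀ u ∈ labS z, numS z u = numS v w →
        (z = v ∧ u = w) ∨ (z = w ∧ u = v) := by decide +kernel
    intro v _ w _ hvw i _ u hu hn
    exact h v w hvw i u hu hn

theorem Bd_univ : Bd (Finset.univ : Finset (Fin 6)) = dD5 := by
  ext x
  constructor
  · rintro ⟨⟨h1, _, h3⟩, v, _, h4⟩
    exact ⟨h1, h3, v, h4⟩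
  · rintro ⟨h1, h3, v, h4⟩
    exact ⟨⟨h1, fun v hv => absurd (Finset.mem_univ v) hv, h3⟩, v, Finset.mem_univ v, h4⟩

/-- The tautological homeomorphism. -/
noncomputable def e6 : X6 ≃ₜ dD5 := fullS.homeo.trans (Homeomorph.setCongr Bd_univ)

theorem e6_pt (v : Fin 6) (x : Fin 6 → ℝ) (hx : x ∈ Dl (labS v)) :
    ((e6 (pt labS numS odS v (Set.mem_univ v) x hx) : dD5) : Fin 6 → ℝ) = x := rfl

/-- `dD5` is a topological sphere. -/
theorem dD5_sphere : Nonempty (dD5 ≃ₜ Metric.sphere (0 : EuclideanSpace ℝ (Fin 5)) 1) := by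
  have h : (Finset.univ.image (fun i : Fin 6 => i)) = (Finset.univ : Finset (Fin 6)) := by
    simp
  refine ⟨(Homeomorph.setCongr ?_).trans (bdSphere (fun i : Fin 6 => i) Function.injective_id)⟩
  rw [h, Bd_univ]

/-- Mod 6. -/
def f6 (n : ℕ) : Fin 6 := Fin.ofNat 6 n

theorem canonIso : Iso labR numR odR labS numS odS (fun r : Ri => f6 r.1)
    (fun v : Fin 6 => c6 v) (fun _ u => f6 u) (fun _ w => (w : ℕ)) (sL canon)
    (Set.univ : Set (Fin 6)) := by
  have hin : ∀ i ∈ sL canon, ∃ v ∈ Finset.range 6, i = c6 v := full_canon.out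
  refine Iso.of_of ?_ ?_ ?_ ?_ ?_ ?_ ?_ ?_ ?_ ?_ ?_
  · intro i _; exact Set.mem_univ _
  · intro j _
    exact full_canon.mem _ (Finset.mem_range.mpr j.2)
  · intro i hi
    obtain ⟨v, hv, rfl⟩ := hin i hi
    clear hi
    revert v
    decide +kernel
  · intro j _
    revert j
    decide +kernel
  · intro i hi
    obtain ⟨v, hv, rfl⟩ := hin i hi
    clear hi
    revert v
    decide +kernel
  · intro j _
    revert j
    decide +kernel
  · intro i hi
    obtain ⟨v, hv, rfl⟩ := hin i hi
    clear hi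
    revert v
    decide +kernel
  · intro j _
    revert j
    decide +kernel
  · have h : ∀ v ∈ Finset.range 6, ∀ a ∈ labR (c6 v), ∀ w ∈ Finset.range 6,
        ∀ b ∈ labR (c6 w), (numS (f6 (c6 v).1) (f6 a) = numS (f6 (c6 w).1) (f6 b) ↔
          numR (c6 v) a = numR (c6 w) b) := by decide +kernel
    intro i hi a ha j hj b hb
    obtain ⟨v, hv, rfl⟩ := hin i hi
    obtain ⟨w, hw, rfl⟩ := hin j hj
    exact h v hv a ha w hw b hb
  · intro i hi
    obtain ⟨v, hv, rfl⟩ := hin i hi
    clear hi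
    revert v
    decide +kernel
  · intro i hi
    obtain ⟨v, hv, rfl⟩ := hin i hi
    clear hi
    revert v
    decide +kernel

end H4T
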