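import Pool.Agent.Lib_MP_55d5ef_top.TAsm

/-!
# `MP_55d5ef_gt`, level B: the two chains of moves as inputs of the assembly
-/

set_option linter.unusedSectionVars false

open Lib_MP_55d5ef_pd Fl49 H4C PL55

namespace H4T

/-- A chain of moves which ends at the boundary of the simplex (L4). -/
theorem exists_E {S : Set Ri} (h : Ch (S, none) (sL canon, none)) :
    ∃ E : X labR numR odR S ≃ₜ X6, PLH E := by
  obtain ⟨e, he, _⟩ := h.plh (by intro p hp; cases hp)
  exact ⟨e.trans canonIso.homeo, he.trans ⟨canonIso.plx, canonIso.plx_symm⟩⟩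

/-- The same after a change of labels (the realisation used for `N`). -/
theorem exists_E' {VN : Type} [DecidableEq VN] {ρN : Type} {labN : ρN → Finset VN}
    {numN : ρN → VN → ℕ} {odN : ρN → VN → List VN} {SN : Set ρN} {S : Set Ri}
    {φ : ρN → Ri} {ψ : Ri → ρN} {f : ρN → VN → ℕ} {g : Ri → ℕ → VN}
    (hi : Iso labN numN odN labR numR odR φ ψ f g SN S)
    (h : Ch (S, none) (sL canon, none)) :
    ∃ E : X labN numN odN SN ≃ₜ X6, PLH E := by
  obtain ⟨e, he⟩ := exists_E h
  exact ⟨hi.homeo.trans e, PLH.trans ⟨hi.plx, hi.plx_symm⟩ he⟩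

/-- A chain of moves with a marked vertex, from `C480` (L2): here `S` is the set of records of
`C480` in the format of the checker, `S'` the result. -/
theorem exists_e2 {VM : Type} [DecidableEq VM] {ρM : Type} {labM : ρM → Finset VM}
    {numM : ρM → VM → ℕ} {odM : ρM → VM → List VM} {SM : Set ρM} {S S' : Set Ri} {p q : Ri × ℕ}
    (hp : VP S p) (h : Ch (S, some p) (S', some q))
    (e : XC ≃ₜ X labR numR odR S) (he : PLH e) (hep : e pinf = vpt hp)
    (e' : X labR numR odR S' ≃ₜ X labM numM odM SM) (he' : PLH e') :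
    ∃ hq : VP S' q, ∃ e2 : XC ≃ₜ X labM numM odM SM, PLH e2 ∧ e2 pinf = e' (vpt hq) := by
  obtain ⟨d, hd, hd2⟩ := h.plh (by
    intro r hr
    have : p = r := Option.some.inj hr
    subst this
    exact hp)
  obtain ⟨q', hq', _, hq2, h3⟩ := hd2 p rfl
  have : q = q' := Option.some.inj hq'
  subst this
  refine ⟨hq2, (e.trans d).trans e', (he.trans hd).trans he', ?_⟩
  show e' (d (e pinf)) = _
  rw [hep, h3]

end H4T
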