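import Pool.Agent.Lib_MP_55d5ef_top.TRec
import Pool.Agent.Lib_MP_55d5ef_top.TabD
import Pool.Agent.Lib_MP_55d5ef_fl.B2E

/-!
# `MP_55d5ef_gt`, level B: link L2 for the official table of `C'`
-/

set_option linter.unusedSectionVars false

namespace H4T

open Fl49 PL55 Finset H4C

theorem lis_D : lisChk b2L2 498 (rP tabDD) = true := by decide +kernel

/-- **Link L2.** -/
theorem link2D : ∃ e : XC ≃ₜ GD.XG, PLH e ∧
    e pinf = pt labU numD odD 489 (Set.mem_univ _) (vx 0) (vx_mem (Finset.mem_univ _)) :=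
  link2 (num := numD) (od := odD) (r := rP tabDD) (trc_ofP tabDD_chk) lis_D

end H4T
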