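import Pool.Agent.Lib_MP_55d5ef_top.TCore
import Pool.Agent.Lib_MP_55d5ef_top.TLtwo
import Pool.Agent.Lib_MP_55d5ef_top.TEnd
import Pool.Agent.Lib_MP_55d5ef_pl.Asm
import Pool.Agent.Lib_MP_55d5ef_i.BIsoN
import Pool.Agent.Lib_MP_55d5ef_i.BMark
import Pool.Agent.Lib_MP_55d5ef_fl.Ict

/-!
# `MP_55d5ef_gt`, level B: all links except the moves of `N504` and the PL part of L3
-/

set_option linter.unusedSectionVars false

open Matrix Topology Filter Lib_MP_55d5ef_geo Lib_MP_55d5ef Lib_MP_55d5ef_pd Fl49 H4C PL55 MP55I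
  MP55B

namespace H4T

/-- L4 from a kernel checked list of records and a chain of moves. -/
theorem exists_EN {L : List Ri} (hl : lisChk L 504 (rP tabNN) = true)
    (hc : Ch (sL L, none) (sL canon, none)) :
    ∃ E : B3.XN numR0 odR0 ≃ₜ X6, PLH E := by
  obtain ⟨h1, h2, h3, h4⟩ := lisChk_sound hl
  obtain ⟨ψ, g, h⟩ := iso_tab (n := 504) (num := numN) (od := odN) h3 h2 (by
    intro i
    rw [show trc numN odN i = (i.1, rP tabNN i.1) from trc_ofP tabNN_chk i]
    exact h4 i.1 i.2)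
  obtain ⟨E, hE⟩ := exists_E' h hc
  exact ⟨isoN.homeo.trans E, PLH.trans ⟨isoN.plx, isoN.plx_symm⟩ hE⟩

/-- **Level B from the PL part of L3 and the moves of L4.** -/
theorem levelB_bundle {h k : ℝ → ℝ → ℝ} (hr : B3.Rad h k)
    (p3 : PLX (B3.lab5 (ρ := Fin 492 ⊕ (Fin 2 × Fin 6))) (B3.numN numR0) (B3.odN odR0) Set.univ
      (B3.core rok0) (B3.lab5 (ρ := Fin 492 ⊕ (Fin 2 × Fin 3))) (B3.numC numR0) (B3.odC odR0)
      Set.univ {B3.apx numR0 odR0} (B3.phi rok0 hr))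
    (E : B3.XN numR0 odR0 ≃ₜ X6) (hE : PLH E) : LevelB := by
  obtain ⟨e, he, hep⟩ := link2D
  have hD : PLH isoD.homeo := ⟨isoD.plx, isoD.plx_symm⟩
  have hm : isoD.homeo (B3.apx numR0 odR0) = e pinf := by
    rw [hep]
    have h1 : B3.apx numR0 odR0 = B3.chC numR0 odR0 1 2 B3.e0 := by
      symm
      rw [← B3.mC_eq_one rok0, B3.mC_inr rok0 1 2 B3.e0_mem]
      simp [B3.prmC, B3.ev3, B3.e0]
    rw [h1, isoD_mark]
    rfl
  have hee : e.symm (isoD.homeo (B3.apx numR0 odR0)) = pinf := by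
    rw [hm, e.symm_apply_apply]
  have hP : PLH (isoD.homeo.trans e.symm) := hD.trans he.symm
  have h2 := (hP.compl (T := {B3.apx numR0 odR0}) (T' := {pinf}) (fun x => by
    rw [Set.mem_singleton_iff, Set.mem_singleton_iff]
    constructor
    · rintro rfl
      exact hee
    · intro hx
      exact (isoD.homeo.trans e.symm).injective (hx.trans hee.symm))).1
  exact PL55.levelB_of (img_manifold gdat) pinf (fun x => QH (hF x)) homB (fun x => rfl) hFB_PDX
    (B3.apx numR0 odR0) (isoD.homeo.trans e.symm) hee h2 (B3.core rok0) (B3.phi rok0 hr)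
    (B3.homB3 rok0 hr) (B3.homB3_coe rok0 hr) p3 fullS E.symm hE.2 hE.1 (KH_B3 rok0).iota0
    (KH_B3 rok0).i1 (KH_B3 rok0).i2 (KH_B3 rok0).i3 (core_eq rok0)

end H4T
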