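import Pool.Agent.Lib_MP_55d5ef_i.BKH
import Pool.Agent.Lib_MP_55d5ef_i.IPL
import Pool.Agent.Lib_MP_55d5ef_b3.Hom
import Pool.Agent.Lib_MP_55d5ef_fl.Iso

/-!
# `MP_55d5ef_gt`, level B: the core of L5 is the core of L3
-/

set_option linter.unusedSectionVars false

namespace H4T

open Fl49 PL55 MP55I MP55B

variable {R : Type} {numR : R → Fin 5 → ℕ} {odR : R → Fin 5 → List (Fin 5)}

theorem prm_cA (k : Fin 6) (x : Fin 5 → ℝ) : (B3.prm k x).1 = cA k x := by
  fin_cases k <;> rfl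

theorem bt_tb' (t : Fin 2) : bt (tb t) = t := by
  revert t; decide

/-- **The core.** -/
theorem core_eq (hR : B3.ROk numR odR) :
    (KH_B3 hR).iota0 '' {z | z.2 = 0} = B3.core hR := by
  rw [(KH_B3 hR).i4]
  ext y
  constructor
  · rintro ⟨t, k, x, hx, h1, rfl⟩
    have hx' : x ∈ B3.Sx := B3.mem_Dl.1 hx
    show B3.mN hR _ = 1
    rw [← h1, ← prm_cA, ← B3.mN_inr hR (bt t) k hx']
    unfold B3.chN
    rw [B3.cp_of _ hx']
    rfl
  · intro hy
    have hy : B3.mN hR y = 1 := hy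
    obtain ⟨i, x, hx, rfl⟩ := B3.cp_surj y
    rcases i with r | ⟨t, k⟩
    · rw [B3.mN_inl hR r hx] at hy
      exact absurd hy (by norm_num)
    · have h1 : B3.mN hR (B3.chN numR odR t k x) = 1 := hy
      rw [B3.mN_inr hR t k hx, prm_cA] at h1
      refine ⟨tb t, k, x, B3.mem_Dl.2 hx, h1, ?_⟩
      rw [B3.cp_of _ hx]
      refine pt_congr2 ?_ _ _ _ _ rfl
      show Sum.inr (t, k) = Sum.inr (bt (tb t), k)
      rw [bt_tb']

end H4T
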