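import Pool.Agent.Lib_MP_55d5ef_top.TBd

/-!
# `MP_55d5ef_gt`, level B: finite piecewise affine maps

`FPA K f` : `f : E → X` is given on `K` by finitely many affine maps into charts, on closed
polyhedra.  Stable under composition with `PLX` maps (compactness of the simplices).
-/

set_option linter.unusedSectionVars false

namespace H4T

open Fl49 PL55 Finset Topology Filter

/-- A piece: polyhedron, chart, affine map. -/
structure Pc (E : Type) [AddCommGroup E] [Module ℝ E] [TopologicalSpace E] (V J : Type) where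
  Q : Set E
  j : J
  A : E →L[ℝ] (V → ℝ)
  b : V → ℝ

section

variable {E : Type} [AddCommGroup E] [Module ℝ E] [TopologicalSpace E] [ContinuousAdd E]
variable {V : Type} [DecidableEq V] {ρ : Type}
variable {lab : ρ → Finset V} {num : ρ → V → ℕ} {od : ρ → V → List V} {S : Set ρ}
variable {V' : Type} [DecidableEq V'] {ρ' : Type}
variable {lab' : ρ' → Finset V'} {num' : ρ' → V' → ℕ} {od' : ρ' → V' → List V'} {S' : Set ρ'}

/-- The piece describes `f` on its polyhedron inside `K`. -/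
def Pc.Good (K : Set E) (f : E → X lab num od S) (q : Pc E V S) : Prop :=
  HPoly q.Q ∧ ∀ z ∈ q.Q, z ∈ K → ∃ hy : q.A z + q.b ∈ Dl (lab q.j),
    f z = pt lab num od q.j q.j.2 (q.A z + q.b) hy

/-- Finitely many affine pieces cover `K`. -/
def FPA (K : Set E) (f : E → X lab num od S) : Prop :=
  ∃ L : List (Pc E V S), (∀ q ∈ L, q.Good K f) ∧ ∀ z ∈ K, ∃ q ∈ L, z ∈ q.Q

/-- Finitely many pieces suffice on a compact simplex. -/
theorem plx_fin {e : X lab num od S → X lab' num' od' S'}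
    (h : PLX lab num od S ∅ lab' num' od' S' ∅ e) (i : S) :
    ∃ L : List (Pc (V → ℝ) V' S'),
      (∀ q ∈ L, HPoly q.Q ∧ ∀ x ∈ q.Q, ∀ hx : x ∈ Dl (lab i),
        ∃ hy : q.A x + q.b ∈ Dl (lab' q.j),
          e (pt lab num od i i.2 x hx) = pt lab' num' od' q.j q.j.2 (q.A x + q.b) hy) ∧
      (∀ x ∈ Dl (lab i), ∃ q ∈ L, x ∈ q.Q) := by
  classical
  by_cases hne : ∃ x, x ∈ Dl (lab i)
  swap
  · exact ⟨[], by simp, fun x hx => absurd ⟨x, hx⟩ hne⟩
  obtain ⟨z0, hz0⟩ := hne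
  have hpl := h (pt lab num od i i.2 z0 hz0) (e (pt lab num od i i.2 z0 hz0)) i
  have hdom : dom lab num od S ∅ i = Dl (lab i) := by
    ext x
    exact ⟨fun hx => hx.1, fun hx => ⟨hx, fun hc => hc⟩⟩
  -- local lists
  have key : ∀ p ∈ Dl (lab i), ∃ L : List (Pc (V → ℝ) V' S'),
      (∀ q ∈ L, HPoly q.Q ∧ ∀ x ∈ q.Q, ∀ hx : x ∈ Dl (lab i),
        ∃ hy : q.A x + q.b ∈ Dl (lab' q.j),
          e (pt lab num od i i.2 x hx) = pt lab' num' od' q.j q.j.2 (q.A x + q.b) hy) ∧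
      {x | ∃ q ∈ L, x ∈ q.Q} ∈ 𝓝[Dl (lab i)] p := by
    intro p hp
    obtain ⟨n, Q, j, A, b, h1, h2, _, h4⟩ := hpl p (by rw [hdom]; exact hp)
    refine ⟨(List.finRange n).map (fun k => ⟨Q k, j k, A k, b k⟩), ?_, ?_⟩
    · intro q hq
      obtain ⟨k, _, rfl⟩ := List.mem_map.mp hq
      refine ⟨h1 k, ?_⟩
      intro x hx hx1
      obtain ⟨⟨hy, _⟩, he⟩ := h2 k x ⟨hx, by rw [hdom]; exact hx1⟩
      refine ⟨hy, ?_⟩
      unfold chart at he
      rw [dif_pos hx1, dif_pos hy] at he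
      exact he
    · rw [hdom] at h4
      filter_upwards [h4] with x hx
      obtain ⟨k, hk⟩ := hx
      exact ⟨_, List.mem_map.mpr ⟨k, List.mem_finRange k, rfl⟩, hk⟩
  choose! L hL1 hL2 using key
  obtain ⟨t, ht1, ht2⟩ := (isCompact_Dl (lab i)).elim_nhdsWithin_subcover
    (fun p => {x | ∃ q ∈ L p, x ∈ q.Q}) hL2
  refine ⟨t.toList.flatMap L, ?_, ?_⟩
  · intro q hq
    obtain ⟨p, hp, hq⟩ := List.mem_flatMap.mp hq
    exact hL1 p (ht1 p (Finset.mem_toList.mp hp)) q hq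
  · intro x hx
    have := ht2 hx
    simp only [Set.mem_iUnion] at this
    obtain ⟨p, hp, q, hq, hxq⟩ := this
    exact ⟨q, List.mem_flatMap.mpr ⟨p, Finset.mem_toList.mpr hp, hq⟩, hxq⟩

/-- Composition with a piecewise linear map. -/
theorem FPA.comp {K : Set E} {f : E → X lab num od S} (hf : FPA K f)
    {e : X lab num od S → X lab' num' od' S'}
    (he : PLX lab num od S ∅ lab' num' od' S' ∅ e) : FPA K (fun z => e (f z)) := by
  classical
  obtain ⟨L, h1, h2⟩ := hf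
  choose M hM1 hM2 using fun i : S => plx_fin he i
  refine ⟨L.flatMap (fun q => (M q.j).map (fun r =>
    (⟨q.Q ∩ {z | q.A z + q.b ∈ r.Q}, r.j, r.A.comp q.A, r.A q.b + r.b⟩ : Pc E V' S'))), ?_, ?_⟩
  · intro s hs
    obtain ⟨q, hq, hs⟩ := List.mem_flatMap.mp hs
    obtain ⟨r, hr, rfl⟩ := List.mem_map.mp hs
    obtain ⟨g1, g2⟩ := h1 q hq
    obtain ⟨k1, k2⟩ := hM1 q.j r hr
    refine ⟨g1.inter (k1.preimage _ _), ?_⟩
    rintro z ⟨hz1, hz2⟩ hzK
    obtain ⟨hy, hfz⟩ := g2 z hz1 hzK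
    obtain ⟨hy', hez⟩ := k2 _ hz2 hy
    have e3 : (r.A.comp q.A) z + (r.A q.b + r.b) = r.A (q.A z + q.b) + r.b := by
      rw [map_add, ContinuousLinearMap.comp_apply, add_assoc]
    refine ⟨by rw [e3]; exact hy', ?_⟩
    show e (f z) = _
    rw [hfz, hez]
    exact pt_congr _ _ _ e3.symm
  · intro z hz
    obtain ⟨q, hq, hzq⟩ := h2 z hz
    obtain ⟨hy, _⟩ := (h1 q hq).2 z hzq hz
    obtain ⟨r, hr, hzr⟩ := hM2 q.j _ hy
    exact ⟨_, List.mem_flatMap.mpr ⟨q, hq, List.mem_map.mpr ⟨r, hr, rfl⟩⟩, hzq, hzr⟩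

end

/-- In the boundary of the simplex: an honest piecewise affine map to `ℝ⁶`. -/
theorem FPA.six {E : Type} [AddCommGroup E] [Module ℝ E] [TopologicalSpace E]
    {K : Set E} {f : E → X6} (hf : FPA K f) :
    ∃ (n : ℕ) (Q : Fin n → Set E) (A : Fin n → E →L[ℝ] (Fin 6 → ℝ)) (b : Fin n → Fin 6 → ℝ),
      (∀ k, HPoly (Q k)) ∧
      (∀ k, ∀ z ∈ Q k, z ∈ K → ((e6 (f z) : dD5) : Fin 6 → ℝ) = A k z + b k) ∧
      (∀ z ∈ K, ∃ k, z ∈ Q k) := by
  obtain ⟨L, h1, h2⟩ := hf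
  refine ⟨L.length, fun k => (L.get k).Q, fun k => (L.get k).A, fun k => (L.get k).b,
    fun k => (h1 _ (List.get_mem L k)).1, ?_, ?_⟩
  · intro k z hz hzK
    obtain ⟨hy, hfz⟩ := (h1 _ (List.get_mem L k)).2 z hz hzK
    rw [hfz]
    rfl
  · intro z hz
    obtain ⟨q, hq, hzq⟩ := h2 z hz
    obtain ⟨k, hk⟩ := List.get_of_mem hq
    exact ⟨k, by show z ∈ (L.get k).Q; rw [hk]; exact hzq⟩

end H4T
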