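import Pool.Agent.Lib_MP_55d5ef_top.TPk
import Pool.Agent.Lib_MP_55d5ef_top.TRest
import Pool.Agent.Lib_MP_55d5ef_fl.PkD
import Pool.Agent.Lib_MP_55d5ef_fl.PkStart

/-!
# `MP_55d5ef_gt`, level B from the packed run
-/

set_option linter.unusedSectionVars false

open Fl49 PL55 MP55B H4C

namespace H4T

/-- **Level B from the run of the packed checker.** -/
theorem levelB_of_b4
    (h : ∃ c S1, Full labK numK odK (Finset.range 6) c S1 ∧ GdG labK odK S1 ∧
      PLE (labU : Fin 504 → Finset (Fin 5)) numN odN (Set.univ : Set (Fin 504))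
        labK numK odK S1) : LevelB := by
  obtain ⟨c, S1, h1, h2, h3⟩ := h
  obtain ⟨E, hE⟩ := exists_E_of_run h3 h1 h2
  exact levelB_of_E E hE

/-- The run in one piece: start, parts (as one statement on `t`), last part. -/
theorem b4_of_end {t0 t : TB} {off : ℕ} {l : List (ℕ × ℕ)} {n c : ℕ}
    (h0 : stChk (tbg t0) = true)
    (h1 : InvK (SK (tbg t0) 504 0) 504 0 → InvK (SK (tbg t) n 0) n off ∧
      PLK (SK (tbg t0) 504 0) (SK (tbg t) n 0))
    (h2 : endChk t off l n c = true) :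
    ∃ c S1, Full labK numK odK (Finset.range 6) c S1 ∧ GdG labK odK S1 ∧
      PLE (labU : Fin 504 → Finset (Fin 5)) numN odN (Set.univ : Set (Fin 504))
        labK numK odK S1 := by
  obtain ⟨i0, p0⟩ := start_ok h0
  obtain ⟨i1, p1⟩ := h1 i0
  obtain ⟨c, S1, a, b, d⟩ := endChk_sound h2 i1
  exact ⟨c, S1, a, b, (p0.trans p1).trans d⟩

end H4T
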