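import Pool.Agent.Lib_MP_55d5ef_fl.PkFull
import Pool.Agent.Lib_MP_55d5ef_top.TBd
import Pool.Agent.Lib_MP_55d5ef_i.BIsoN

/-!
# `MP_55d5ef_gt`, level B: the end of the packed run as input of `levelB_bundle`
-/

set_option linter.unusedSectionVars false

open Fl49 H4C PL55 MP55B

namespace H4T

theorem ple_X6 : PLE labR numR odR (sL canon) labS numS odS (Set.univ : Set (Fin 6)) :=
  ⟨canonIso.homeo, canonIso.plx, canonIso.plx_symm⟩

/-- `N504` is PL homeomorphic to the boundary of the simplex: the form of `levelB_bundle`. -/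
theorem exists_E_of_ple
    (h : PLE (labU : Fin 504 → Finset (Fin 5)) numN odN Set.univ labR numR odR (sL canon)) :
    ∃ E : B3.XN numR0 odR0 ≃ₜ X6, PLH E := by
  have h1 : PLE (B3.lab5 (ρ := Fin 492 ⊕ (Fin 2 × Fin 6))) (B3.numN numR0) (B3.odN odR0)
      Set.univ (labU : Fin 504 → Finset (Fin 5)) numN odN Set.univ :=
    ⟨isoN.homeo, isoN.plx, isoN.plx_symm⟩
  exact (h1.trans h).trans ple_X6

/-- The same from a run which ends at six records forming the boundary of a simplex. -/
theorem exists_E_of_run {ρ : Type} {lab : ρ → Finset ℕ} {num : ρ → ℕ → ℕ}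
    {od : ρ → ℕ → List ℕ} {c : ℕ → ρ} {S : Set ρ}
    (h0 : PLE (labU : Fin 504 → Finset (Fin 5)) numN odN Set.univ lab num od S)
    (h : Full lab num od (Finset.range 6) c S) (hg : GdG lab od S) :
    ∃ E : B3.XN numR0 odR0 ≃ₜ X6, PLH E :=
  exists_E_of_ple (h0.trans (full_to_canon h hg))

end H4T
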