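import Pool.Agent.Lib_MP_55d5ef_top.TGlu
import Pool.Agent.Lib_MP_55d5ef_fl.B2C

/-!
# `MP_55d5ef_gt`, level B: the records of a packed table, for kernel checks
-/

set_option linter.unusedSectionVars false

namespace H4T

open Fl49 PL55 Finset H4C MP55T Lib_MP_55d5ef_geo Lib_MP_55d5ef Lib_MP_55d5ef_q Lib_MP_55d5ef_c

/-- Number of the facet `k` of the pentachoron `i`. -/
def nuP (tab i k : ℕ) : ℕ := min (5 * i + k) (5 * nbP tab i k + pmP tab i k k)

/-- Images. -/
def mpP (tab j k : ℕ) : List ℕ → List ℕ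
  | [] => []
  | v :: l => pmP tab j k v :: mpP tab j k l

/-- Ordering of the facet. -/
def oP (tab i k : ℕ) : List ℕ :=
  cond (Nat.ble (5 * i + k) (5 * nbP tab i k + pmP tab i k k)) (lkn k)
    (mpP tab (nbP tab i k) (pmP tab i k k) (lkn (pmP tab i k k)))

/-- The record. -/
def rP (tab i : ℕ) : Rc := [(0, (nuP tab i 0, oP tab i 0)), (1, (nuP tab i 1, oP tab i 1)),
  (2, (nuP tab i 2, oP tab i 2)), (3, (nuP tab i 3, oP tab i 3)), (4, (nuP tab i 4, oP tab i 4))]

section

variable {n tab : ℕ} (h : (allLt n fun i => allLt 5 fun k => chP n tab i k) = true)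

theorem vls_map_ofP (j : Fin n) (k : Fin 5) (l : List (Fin 5)) :
    vls (l.map ((GTab.ofP n tab h).np j k)) = mpP tab j k (vls l) := by
  induction l with
  | nil => rfl
  | cons v l ih => rw [List.map_cons, vls, vls, mpP, ih]; rfl

theorem vls_od_ofP (i : Fin n) (k : Fin 5) : vls ((GTab.ofP n tab h).od i k) = oP tab i k := by
  unfold GTab.od oP
  have e : GTab.cd i k ≤ GTab.cd ((GTab.ofP n tab h).nj i k) ((GTab.ofP n tab h).np i k k) ↔
      5 * i.1 + k.1 ≤ 5 * nbP tab i k + pmP tab i k k := Iff.rfl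
  by_cases hc : GTab.cd i k ≤ GTab.cd ((GTab.ofP n tab h).nj i k) ((GTab.ofP n tab h).np i k k)
  · rw [if_pos hc, show Nat.ble (5 * i.1 + k.1) (5 * nbP tab i k + pmP tab i k k) = true from
      Nat.ble_eq.mpr (e.mp hc), vls_lk]; rfl
  · have h2 : Nat.ble (5 * i.1 + k.1) (5 * nbP tab i k + pmP tab i k k) = false := by
      rcases hb : Nat.ble (5 * i.1 + k.1) (5 * nbP tab i k + pmP tab i k k) with _ | _
      · rfl
      · exact absurd (e.mpr (Nat.ble_eq.mp hb)) hc
    rw [if_neg hc, h2, vls_map_ofP, vls_lk]; rfl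

theorem trc_ofP (i : Fin n) :
    trc (GTab.ofP n tab h).num (GTab.ofP n tab h).od i = (i.1, rP tab i.1) := by
  unfold trc rP
  simp only [vls_od_ofP]
  rfl

end

end H4T
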