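import Pool.Agent.Lib_MP_55d5ef_fl.PLf
import Pool.Agent.Lib_MP_55d5ef_c.CTop

/-!
# `MP_55d5ef_gt`, level B: from tables `Fin n × Fin 5` to lists of records
-/

set_option linter.unusedSectionVars false

namespace H4T

open Fl49 PL55 Finset H4C

variable {n : ℕ}

/-- The record of row `i` of the table. -/
def tabR (num : Fin n → Fin 5 → ℕ) (od : Fin n → Fin 5 → List (Fin 5)) (i : Fin n) : Ri :=
  (i.val, (List.finRange 5).map (fun v => (v.val, (num i v, (od i v).map Fin.val))))

/-- The list of records of the table. -/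
def tabL (num : Fin n → Fin 5 → ℕ) (od : Fin n → Fin 5 → List (Fin 5)) : List Ri :=
  (List.finRange n).map (tabR num od)

theorem labR_tab (num : Fin n → Fin 5 → ℕ) (od : Fin n → Fin 5 → List (Fin 5)) (i : Fin n) :
    labR (tabR num od i) = Finset.range 5 := by
  have h : (tabR num od i).2.map Prod.fst = [0, 1, 2, 3, 4] := by
    rfl
  unfold labR
  rw [h]
  decide

theorem lkp_tab (num : Fin n → Fin 5 → ℕ) (od : Fin n → Fin 5 → List (Fin 5)) (i : Fin n)
    (v : Fin 5) : lkp v.val (tabR num od i).2 = some (num i v, (od i v).map Fin.val) := by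
  fin_cases v <;> rfl

theorem numR_tab (num : Fin n → Fin 5 → ℕ) (od : Fin n → Fin 5 → List (Fin 5)) (i : Fin n)
    (v : Fin 5) : numR (tabR num od i) v.val = num i v := by
  unfold numR
  rw [lkp_tab]
  rfl

theorem odR_tab (num : Fin n → Fin 5 → ℕ) (od : Fin n → Fin 5 → List (Fin 5)) (i : Fin n)
    (v : Fin 5) : odR (tabR num od i) v.val = (od i v).map Fin.val := by
  unfold odR
  rw [lkp_tab]
  rfl

/-- **The realisation of the table and of the list of records are isomorphic.** -/
theorem tabIso [NeZero n] (num : Fin n → Fin 5 → ℕ) (od : Fin n → Fin 5 → List (Fin 5)) :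
    Iso (labU : Fin n → Finset (Fin 5)) num od labR numR odR (tabR num od)
      (fun r => Fin.ofNat n r.1) (fun _ v => v.val) (fun _ u => Fin.ofNat 5 u)
      (Set.univ : Set (Fin n)) (sL (tabL num od)) := by
  have hin : ∀ j ∈ sL (tabL num od), ∃ i, j = tabR num od i := by
    intro j hj
    obtain ⟨i, _, rfl⟩ := List.mem_map.mp hj
    exact ⟨i, rfl⟩
  have hof : ∀ i : Fin n, Fin.ofNat n i.val = i := by
    intro i
    apply Fin.ext
    rw [Fin.val_ofNat]
    exact Nat.mod_eq_of_lt i.2
  refine Iso.of_of ?_ ?_ ?_ ?_ ?_ ?_ ?_ ?_ ?_ ?_ ?_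
  · intro i _
    exact List.mem_map.mpr ⟨i, List.mem_finRange i, rfl⟩
  · intro j _; exact Set.mem_univ _
  · intro i _
    exact hof i
  · intro j hj
    obtain ⟨i, rfl⟩ := hin j hj
    show tabR num od (Fin.ofNat n i.val) = _
    rw [hof]
  · intro i _ v _
    rw [labR_tab]
    exact Finset.mem_range.mpr v.2
  · intro j _ w _
    exact Finset.mem_univ _
  · intro i _ v _
    apply Fin.ext
    rw [Fin.val_ofNat]
    exact Nat.mod_eq_of_lt v.2
  · intro j hj w hw
    obtain ⟨i, rfl⟩ := hin j hj
    rw [labR_tab] at hw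
    show (Fin.ofNat 5 w).val = w
    rw [Fin.val_ofNat]
    exact Nat.mod_eq_of_lt (Finset.mem_range.mp hw)
  · intro i _ v _ j _ w _
    rw [numR_tab, numR_tab]
  · intro i _ v _
    exact odR_tab num od i v
  · intro i _ v _ l _
    exact Finset.mem_univ _

end H4T
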